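import Pool.Agent.W550.LG2.Stm

/-!
# From local to the whole line
-/

set_option autoImplicit false
open Topology Filter Set
open scoped ContDiff InnerProductSpace

namespace Pool.Agent.W196.LG2

open Pool.Agent.W617.LG Pool.Agent.W550.LG2

theorem t_GLOB (hSTEP : S_STEP) (hSND : S_SND) : S_GLOB := by
  intro q C τ hLW r hMX e Z hZ hon x₀ w hD hw hne
  have hnorm : ∀ s : ℝ, ContinuousAt (fun s : ℝ => C (x₀ + s • w)) s := by
    intro s
    have h1 : ContinuousAt C (x₀ + s • w) := (hLW.smooth _ (hne s)).continuousAt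
    have h2 : ContinuousAt (fun s : ℝ => x₀ + s • w) s := by fun_prop
    exact ContinuousAt.comp (f := fun s : ℝ => x₀ + s • w) (g := C) h1 h2
  have hcont : Continuous (fun s : ℝ => C (x₀ + s • w)) := continuous_iff_continuousAt.2 hnorm
  have hcontab : ∀ a b : E q, Continuous (fun s : ℝ => C (x₀ + s • w) a b) := by
    intro a b
    exact (hcont.clm_apply continuous_const).clm_apply continuous_const
  have hl : ∀ i, Continuous (fun s : ℝ => lam C (x₀ + s • w) (e i)) := by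
    intro i
    unfold lam
    exact (hcontab (e i) (e i)).inner continuous_const
  have hκ : ∀ i, ∃ κ : ℝ, i ∈ Z → ∀ᶠ s in 𝓝 (0 : ℝ),
      (lam C (x₀ + s • w) (e i))⁻¹ = (lam C x₀ (e i))⁻¹ + s * κ := by
    intro i
    by_cases hi : i ∈ Z
    · obtain ⟨κ, hκ⟩ := hSND q C τ hLW r hMX e Z hZ hon x₀ w hD hw i hi
      exact ⟨κ, fun _ => hκ⟩
    · exact ⟨0, fun h => absurd h hi⟩
  choose κ hκ using hκ
  set A : Set ℝ := {s | ∀ᶠ s' in 𝓝 s, Diag C e Z (x₀ + s' • w) ∧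
    ∀ i ∈ Z, (lam C (x₀ + s' • w) (e i))⁻¹ = (lam C x₀ (e i))⁻¹ + s' * κ i} with hA
  have hAopen : IsOpen A := isOpen_setOf_eventually_nhds
  have hA0 : (0 : ℝ) ∈ A := by
    have h1 := hSTEP q C τ hLW r hMX e Z hZ hon x₀ w hD hw
    have h2 : ∀ᶠ s in 𝓝 (0 : ℝ), ∀ i ∈ Z,
        (lam C (x₀ + s • w) (e i))⁻¹ = (lam C x₀ (e i))⁻¹ + s * κ i := by
      rw [Filter.eventually_all_finset]
      exact fun i hi => hκ i hi
    exact h1.and h2
  have hAclosed : IsClosed A := by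
    rw [← closure_subset_iff_isClosed]
    intro s₁ hs₁
    -- the entries at `s₁`
    have hmul : ∀ i ∈ Z, lam C (x₀ + s₁ • w) (e i) * ((lam C x₀ (e i))⁻¹ + s₁ * κ i) = 1 := by
      intro i hi
      have hcl : IsClosed {s : ℝ | lam C (x₀ + s • w) (e i) * ((lam C x₀ (e i))⁻¹ + s * κ i) = 1} := by
        apply isClosed_eq _ continuous_const
        exact (hl i).mul (by fun_prop)
      apply closure_minimal _ hcl hs₁
      intro s hs
      obtain ⟨h1, h2⟩ := Filter.Eventually.self_of_nhds hs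
      show lam C (x₀ + s • w) (e i) * ((lam C x₀ (e i))⁻¹ + s * κ i) = 1
      rw [← h2 i hi]
      exact mul_inv_cancel₀ (h1.nz i hi)
    have hnz : ∀ i ∈ Z, lam C (x₀ + s₁ • w) (e i) ≠ 0 := by
      intro i hi h0
      have := hmul i hi
      rw [h0, zero_mul] at this
      exact zero_ne_one this
    have hinv : ∀ i ∈ Z, (lam C (x₀ + s₁ • w) (e i))⁻¹ = (lam C x₀ (e i))⁻¹ + s₁ * κ i :=
      fun i hi => inv_eq_of_mul_eq_one_right (hmul i hi)
    have hform : ∀ a b, C (x₀ + s₁ • w) a b =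
        ∑ i ∈ Z, (lam C (x₀ + s₁ • w) (e i) * ⟪e i, a⟫_ℝ * ⟪e i, b⟫_ℝ) • e i := by
      intro a b
      have hcl : IsClosed {s : ℝ | C (x₀ + s • w) a b =
          ∑ i ∈ Z, (lam C (x₀ + s • w) (e i) * ⟪e i, a⟫_ℝ * ⟪e i, b⟫_ℝ) • e i} := by
        apply isClosed_eq (hcontab a b)
        apply continuous_finset_sum
        intro i _
        exact (((hl i).mul continuous_const).mul continuous_const).smul continuous_const
      apply closure_minimal _ hcl hs₁
      intro s hs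
      exact (Filter.Eventually.self_of_nhds hs).1.form a b
    have hD1 : Diag C e Z (x₀ + s₁ • w) := ⟨hne s₁, hform, hnz⟩
    have htr : ∀ {P : ℝ → Prop}, (∀ᶠ t in 𝓝 (0 : ℝ), P (s₁ + t)) → ∀ᶠ s in 𝓝 s₁, P s := by
      intro P hP
      have h1 : Tendsto (fun s : ℝ => s - s₁) (𝓝 s₁) (𝓝 0) := by
        have : Tendsto (fun s : ℝ => s - s₁) (𝓝 s₁) (𝓝 (s₁ - s₁)) := (continuous_sub_right s₁).tendsto s₁
        rwa [sub_self] at this
      filter_upwards [h1.eventually hP] with s hs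
      rwa [add_sub_cancel] at hs
    have hpt : ∀ t : ℝ, x₀ + s₁ • w + t • w = x₀ + (s₁ + t) • w := by
      intro t
      rw [add_smul, add_assoc]
    have h3 := hSTEP q C τ hLW r hMX e Z hZ hon (x₀ + s₁ • w) w hD1 hw
    simp only [hpt] at h3
    have h4 := htr (P := fun s => Diag C e Z (x₀ + s • w)) h3
    have h5 : ∀ i ∈ Z, ∀ᶠ s in 𝓝 s₁, (lam C (x₀ + s • w) (e i))⁻¹ = (lam C x₀ (e i))⁻¹ + s * κ i := by
      intro i hi
      obtain ⟨κ', hκ'⟩ := hSND q C τ hLW r hMX e Z hZ hon (x₀ + s₁ • w) w hD1 hw i hi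
      simp only [hpt] at hκ'
      have h6 : ∀ᶠ s in 𝓝 s₁, (lam C (x₀ + s • w) (e i))⁻¹ = (lam C (x₀ + s₁ • w) (e i))⁻¹ + (s - s₁) * κ' := by
        apply htr
        filter_upwards [hκ'] with t ht
        rw [ht, add_sub_cancel_left]
      obtain ⟨s', hs'A, hs'⟩ := ((mem_closure_iff_frequently.1 hs₁).and_eventually
        (eventually_eventually_nhds.2 h6)).exists
      have hs'A' : ∀ᶠ s'' in 𝓝 s', Diag C e Z (x₀ + s'' • w) ∧
        ∀ i ∈ Z, (lam C (x₀ + s'' • w) (e i))⁻¹ = (lam C x₀ (e i))⁻¹ + s'' * κ i := hs'A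
      have h7 : (fun s'' : ℝ => (lam C x₀ (e i))⁻¹ + s'' * κ i) =ᶠ[𝓝 s']
          (fun s'' : ℝ => (lam C (x₀ + s₁ • w) (e i))⁻¹ + (s'' - s₁) * κ') := by
        filter_upwards [hs', hs'A'] with s'' ha hb
        rw [← ha, ← hb.2 i hi]
      have h8 := h7.deriv_eq
      have d1 : HasDerivAt (fun s'' : ℝ => (lam C x₀ (e i))⁻¹ + s'' * κ i) (κ i) s' := by
        have := ((hasDerivAt_id s').mul_const (κ i)).const_add ((lam C x₀ (e i))⁻¹)
        simpa using this
      have d2 : HasDerivAt (fun s'' : ℝ => (lam C (x₀ + s₁ • w) (e i))⁻¹ + (s'' - s₁) * κ') κ' s' := by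
        have := (((hasDerivAt_id s').sub_const s₁).mul_const κ').const_add ((lam C (x₀ + s₁ • w) (e i))⁻¹)
        simpa using this
      rw [d1.deriv, d2.deriv] at h8
      filter_upwards [h6] with s hs
      rw [hs, hinv i hi, ← h8]
      ring
    have h9 : ∀ᶠ s in 𝓝 s₁, ∀ i ∈ Z, (lam C (x₀ + s • w) (e i))⁻¹ = (lam C x₀ (e i))⁻¹ + s * κ i := by
      rw [Filter.eventually_all_finset]
      exact h5
    exact h4.and h9
  have huniv : A = univ := IsClopen.eq_univ ⟨hAclosed, hAopen⟩ ⟨0, hA0⟩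
  intro i hi
  refine ⟨κ i, fun s => ?_⟩
  have hs : s ∈ A := by rw [huniv]; exact mem_univ s
  obtain ⟨h1, h2⟩ := Filter.Eventually.self_of_nhds (p := fun s' => Diag C e Z (x₀ + s' • w) ∧
    ∀ i ∈ Z, (lam C (x₀ + s' • w) (e i))⁻¹ = (lam C x₀ (e i))⁻¹ + s' * κ i) hs
  exact ⟨h1.nz i hi, h2 i hi⟩

end Pool.Agent.W196.LG2
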